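import Pool.Agent.helper82.CF.Defs

/-!
# Project ws: weak subconvexity with exponent 1/2 - ε for all GL(n)  (MP_cf4097_nt)

Paper proof: /team-store/MP_cf4097_weak_helper41.md. Notation there: `lam = log m`, `d = δ`.
The class `Std θ K` and the data `LDatum n` are in Pool/Agent/helper82/CF/Defs.lean.
File of a module: Pool/Agent/<seat>/WS/XX.lean, namespace Pool.Agent.WS,
`theorem XX (h : YY_stmt) ... : XX_stmt` (any other statement may be a hypothesis, no circles).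
`Λ` is `ArithmeticFunction.vonMangoldt`. Recall `Λ 0 = Λ 1 = 0`, `Real.log 0 = 0`.
-/

set_option autoImplicit false

open Complex ArithmeticFunction MeasureTheory
open scoped ComplexConjugate
open Pool.Agent.CF (LDatum Std)

namespace Pool.Agent.WS

/-- `Λ(m) a(m) / log m` -/
noncomputable def cf (a : ℕ → ℂ) (m : ℕ) : ℂ :=
  (vonMangoldt m : ℂ) * a m / (Real.log m : ℂ)

/-- the Dirichlet polynomial `∑_{m ≤ N} Λ(m) a(m) / log m * m^(-s)` -/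
noncomputable def P (a : ℕ → ℂ) (N : ℕ) (s : ℂ) : ℂ :=
  ∑ m ∈ Finset.range (N + 1), cf a m * (m : ℂ) ^ (-s)

/-- the tail `∑_{m > N} Λ(m) a(m) / log m * m^(-s)` -/
noncomputable def tail (a : ℕ → ℂ) (N : ℕ) (s : ℂ) : ℂ :=
  ∑' m : ℕ, if N < m then cf a m * (m : ℂ) ^ (-s) else 0

/-- `f = L exp (-P)` -/
noncomputable def f {n : ℕ} (d : LDatum n) (N : ℕ) (s : ℂ) : ℂ := d.L s * exp (-P d.a N s)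

/-- the function `g_τ`: its real part on both lines `Re s = 1+τ` and `Re s = -τ` is
`Re P(1+τ+iy)` -/
noncomputable def g (a : ℕ → ℂ) (N : ℕ) (τ : ℝ) (s : ℂ) : ℂ :=
  ∑ m ∈ Finset.range (N + 1),
    ((vonMangoldt m / Real.log m * (m : ℝ) ^ (-1 - τ) /
      ((m : ℝ) ^ (1 / 2 + τ) + (m : ℝ) ^ (-(1 / 2) - τ)) : ℝ) : ℂ) *
    (conj (a m) * (m : ℂ) ^ (s - 1 / 2) + a m * (m : ℂ) ^ (1 / 2 - s))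

/-- `∑ Λ |a|² m^(-1-δ) ≤ R` -/
def RS (a : ℕ → ℂ) (δ R : ℝ) : Prop :=
  Summable (fun m : ℕ => vonMangoldt m * ‖a m‖ ^ 2 * (m : ℝ) ^ (-1 - δ)) ∧
    ∑' m : ℕ, vonMangoldt m * ‖a m‖ ^ 2 * (m : ℝ) ^ (-1 - δ) ≤ R

/-- `∑_{m ≤ N} Λ(m) |a(m)| / m` -/
noncomputable def S1 (a : ℕ → ℂ) (N : ℕ) : ℝ :=
  ∑ m ∈ Finset.range (N + 1), vonMangoldt m * ‖a m‖ / m

/-! ## Chebyshev -/

/-- From `Chebyshev.psi_le_const_mul_self` (`ψ x ≤ C x`), by partial summation or dyadic blocks: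
`∑_{2^k < m ≤ 2^(k+1)} Λ(m)/m ≤ ψ(2^(k+1))/2^k ≤ 2C`, and there are `≤ 1 + log N / log 2` blocks. -/
def CH1_stmt : Prop := ∃ C : ℝ, 0 < C ∧ ∀ N : ℕ, 1 ≤ N →
  ∑ m ∈ Finset.range (N + 1), vonMangoldt m / m ≤ C * (1 + Real.log N)

/-- Dyadic blocks from `N` on: the block `2^k N < m ≤ 2^(k+1) N` contributes at most
`C / (log N + k log 2)²`, and `∑_k 1/(x + k log 2)² ≤ C'/x` for `x ≥ log 2`. (`δ ≥ 0` only makes the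
terms smaller.) -/
def CH2_stmt : Prop := ∃ C : ℝ, 0 < C ∧ ∀ (N : ℕ) (δ : ℝ), 2 ≤ N → 0 ≤ δ →
  Summable (fun m : ℕ => if N < m then vonMangoldt m * (m : ℝ) ^ (-1 - δ) / Real.log m ^ 2 else 0) ∧
  ∑' m : ℕ, (if N < m then vonMangoldt m * (m : ℝ) ^ (-1 - δ) / Real.log m ^ 2 else 0) ≤
    C / Real.log N

/-- Blocks `e^k < m ≤ e^(k+1)` (or dyadic): `∑_block Λ(m)/m ≤ C`, and on the block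
`exp (-(log m - u)²/8) ≤ exp (-(max 0 (|k - u| - 1))²/8)`, whose sum over `k` is bounded uniformly in `u`. -/
def CH3_stmt : Prop := ∃ C : ℝ, 0 < C ∧ ∀ (u δ : ℝ), 0 ≤ δ →
  Summable (fun m : ℕ => vonMangoldt m * (m : ℝ) ^ (-1 - δ) *
    Real.exp (-(Real.log m - u) ^ 2 / 8)) ∧
  ∑' m : ℕ, vonMangoldt m * (m : ℝ) ^ (-1 - δ) * Real.exp (-(Real.log m - u) ^ 2 / 8) ≤ C

/-! ## the Dirichlet series -/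

/-- `|Λ a/log m| m^(-1-δ) ≤ (Λ m^(-1-δ)/log² m + Λ |a|² m^(-1-δ))/2` gives summability (CH2 with `N = 2`
and the finitely many terms `m ≤ 2`). For the tail: Cauchy-Schwarz
`|tail| ≤ (∑_{m>N} Λ m^(-1-δ)/log² m)^(1/2) (∑ Λ|a|² m^(-1-δ))^(1/2)` and CH2. -/
def D1_stmt : Prop := ∃ C : ℝ, 0 < C ∧ ∀ (a : ℕ → ℂ) (N : ℕ) (δ R : ℝ), 2 ≤ N → 0 < δ → RS a δ R →
  ∀ s : ℂ, s.re = 1 + δ → Summable (fun m : ℕ => cf a m * (m : ℂ) ^ (-s)) ∧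
    ‖tail a N s‖ ^ 2 ≤ C * R / Real.log N

/-- Mean square. `∫ e^(-2y²) |∑ b_m m^(-iy)|² dy = ∑_{m,m'} b_m conj b_m' √(π/2) exp(-(log m - log m')²/8)`
(absolute convergence: `∑ |b_m| < ∞`, Gaussian Fourier transform `fourierIntegral_gaussian` or
`integral_cexp_quadratic`), `|b_m b_m'| ≤ Λ(m)Λ(m')(m m')^(-1-δ) (|a(m)|²/log² m + |a(m')|²/log² m')/2`,
then CH3 for the inner sum and `1/log² m ≤ 1/log² N`. (One may also prove `≤` for finite partial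
sums and use Fatou / uniform convergence.) -/
def D2_stmt : Prop := ∃ C : ℝ, 0 < C ∧ ∀ (a : ℕ → ℂ) (N : ℕ) (δ R : ℝ), 2 ≤ N → 0 < δ → RS a δ R →
  Integrable (fun y : ℝ => Real.exp (-2 * y ^ 2) * ‖tail a N ((1 + δ : ℝ) + y * I)‖ ^ 2) ∧
    ∫ y : ℝ, Real.exp (-2 * y ^ 2) * ‖tail a N ((1 + δ : ℝ) + y * I)‖ ^ 2 ≤
      C * R / Real.log N ^ 2

/-- `f = exp(tail)` on `Re s = 1 + δ`: euler, splitting of the absolutely convergent series (D1). -/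
def TAIL_stmt : Prop := ∀ (n : ℕ) (θ K : ℝ) (d : LDatum n), Std θ K d → ∀ (N : ℕ) (δ : ℝ),
  2 ≤ N → 0 < δ → δ ≤ 1 → ∀ s : ℂ, s.re = 1 + δ → f d N s = exp (tail d.a N s)

/-- Cauchy-Schwarz with CH1; `1/m ≤ e m^(-1-δ)` for `m ≤ N`, since `δ log N ≤ 1`. -/
def RS2_stmt : Prop := ∃ C : ℝ, 0 < C ∧ ∀ (a : ℕ → ℂ) (N : ℕ) (δ R : ℝ), 1 ≤ N → 0 < δ →
  δ * Real.log N ≤ 1 → RS a δ R → S1 a N ^ 2 ≤ C * (1 + Real.log N) * R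

/-! ## functional equation and conductor -/

/-- Phragmen-Lindelof. Fix `w`. `A(z) = Γ_ℝ(z+w) (Γ_ℝ(1-z+conj w))⁻¹` is holomorphic for
`Re z ≥ 1/2` (`differentiable_Gammaℝ_inv`, `Re (z+w) > 0`). On `Re z = 1/2`: `1-z+conj w = conj (z+w)`, so
`|A| = 1`. On `Re z = 3/2`: `1-z+conj w = conj(z+w) - 2`, so by `Gammaℝ_add_two` (if that number is not 0;
if it is 0, `A = 0`) `|A| = |z+w-2|/(2π) ≤ |z+w+1|`. Apply `PhragmenLindelof.vertical_strip` to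
`A(z) exp((z-σ)²) (z+w+1)^(-(z-1/2))`, bounded by an absolute constant on both lines
(`|(z+w+1)^(-(z-1/2))| = |z+w+1|^(-(Re z - 1/2)) exp(Im z * arg(z+w+1))`, `exp(π|y|/2 - y²) ≤ C`), at the real
point `z = σ`: `|A(σ)| ≤ C |σ+w+1|^(σ-1/2)`. Growth: `|Γ_ℝ(z+w)|` is bounded on the strip
(`|Γ(z)| ≤ Γ(Re z)`, see XB_Gamma_le in Pool/Agent/helper74/DM/XB.lean) and
`|1/Γ_ℝ(ζ)| ≤ C exp(C|Im ζ|^...)`: use for instance `Gammaℝ_one_sub_mul_Gammaℝ_one_add` /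
`inv_Gammaℝ_one_sub` (reflection), or compare XB_growth / XB_pl in the same file. -/
def GAM_stmt : Prop := ∃ C : ℝ, 1 ≤ C ∧ ∀ (w : ℂ) (σ : ℝ), -(1 / 2) < w.re → 1 / 2 ≤ σ →
  σ ≤ 3 / 2 → ‖Gammaℝ (σ + w)‖ * ‖(Gammaℝ (1 - σ + w))⁻¹‖ ≤ C * (1 + ‖(1 / 2 : ℂ) + w‖) ^ (σ - 1 / 2)

/-- Norms in `Std.fe` at `s = σ + iy` (`1 - conj s = 1-σ+iy`): `|Γ_ℝ(1-s+conj μ_j)| = |Γ_ℝ(1-σ+iy+μ_j)|`
(conjugate), `Γ_ℝ(s+μ_j) ≠ 0` since `Re (s+μ_j) > 0`; multiply by it: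
`|L(1-σ+iy)| = q^(σ-1/2) |L(σ+iy)| ∏ |Γ_ℝ(σ+w_j)| |Γ_ℝ(1-σ+w_j)|⁻¹`, `w_j = iy + μ_j`; then GAM. `B = C^n`. -/
def FE_stmt : Prop := ∀ n : ℕ, ∃ B : ℝ, 1 ≤ B ∧ ∀ (θ K : ℝ) (d : LDatum n), θ < 1 / 2 →
  Std θ K d → ∀ σ y : ℝ, 1 / 2 ≤ σ → σ ≤ 3 / 2 →
  ‖d.L (((1 - σ : ℝ) : ℂ) + y * I)‖ ≤ B * d.Q y ^ (σ - 1 / 2) * ‖d.L ((σ : ℂ) + y * I)‖

/-- `1 + |1/2 + i(t+y) + μ| ≤ (1 + |1/2 + it + μ|)(1 + |y|)`. -/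
def QG_stmt : Prop := ∀ (n : ℕ) (θ K : ℝ) (d : LDatum n), Std θ K d → ∀ t y : ℝ,
  1 ≤ d.Q t ∧ d.Q (t + y) ≤ d.Q t * (1 + |y|) ^ n

/-- The class is closed under `s ↦ s + it`: `a'(m) = a(m) m^(-it)`, `μ' = μ + it`, same `q`,
`L'(s) = L(s+it)`; in `fe` the root number is `w' = w q^(-it)`. (Same `K`, same `θ`.) -/
def SH_stmt : Prop := ∀ (n : ℕ) (θ K : ℝ) (d : LDatum n), Std θ K d → ∀ t : ℝ,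
  ∃ d' : LDatum n, Std θ K d' ∧ (∀ s, d'.L s = d.L (s + t * I)) ∧ ∀ y, d'.Q y = d.Q (t + y)

/-! ## the function g -/

/-- Termwise: `Re (conj a m^(x+iy) + a m^(-x-iy)) = (m^x + m^(-x)) Re (a m^(-iy))` for real `x`; at
`s = 1+τ+iy`, `x = 1/2+τ`; at `s = -τ+iy`, `x = -(1/2+τ)`. And `m^(-(1+τ)-iy) = m^(-1-τ) m^(-iy)`. -/
def G1_stmt : Prop := ∀ (a : ℕ → ℂ) (N : ℕ) (τ y : ℝ), -(1 / 2) < τ →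
  (g a N τ (((1 + τ : ℝ) : ℂ) + y * I)).re = (P a N (((1 + τ : ℝ) : ℂ) + y * I)).re ∧
  (g a N τ (((-τ : ℝ) : ℂ) + y * I)).re = (P a N (((1 + τ : ℝ) : ℂ) + y * I)).re

/-- Termwise the difference is `(Λ/log m) Re(a m^(-iy)) [m^(-1-δ) r - m^(-1+H)]`,
`r = (m^(1/2-H) + m^(-(1/2-H)))/(m^(1/2+δ) + m^(-(1/2+δ))) ∈ [m^(-(H+δ)), 1]`, so
`|[...]| ≤ m⁻¹ (m^H - m^(-(H+2δ))) ≤ m⁻¹ (2H+2δ) log m * m^H`. -/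
def G2_stmt : Prop := ∀ (a : ℕ → ℂ) (N : ℕ) (δ H y : ℝ), 1 ≤ N → 0 ≤ δ → 0 ≤ H → H ≤ 1 / 2 →
  |(g a N δ (((1 - H : ℝ) : ℂ) + y * I)).re - (P a N (((1 - H : ℝ) : ℂ) + y * I)).re| ≤
    (2 * H + 2 * δ) * (N : ℝ) ^ H * S1 a N

/-- `|g_τ(1/2)| ≤ 2 ∑ (Λ|a|/log m) m^(-1-τ)/m^(1/2+τ) ≤ 2n ∑ (Λ/log m) m^(-3/2-2τ+θ)`, and the exponent is
at most `-1 - (1/2-θ)/2`. (`Λ ≤ log m`, `Λ(m) = 0` unless `m` is a prime power.) -/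
def G3_stmt : Prop := ∀ (n : ℕ) (θ : ℝ), θ < 1 / 2 → ∃ C : ℝ, 0 < C ∧ ∀ (a : ℕ → ℂ) (N : ℕ) (τ : ℝ),
  (∀ m : ℕ, IsPrimePow m → ‖a m‖ ≤ n * (m : ℝ) ^ θ) → -(1 / 2 - θ) / 4 ≤ τ → ‖g a N τ (1 / 2)‖ ≤ C

/-- `P` and `g` are entire and bounded in the strip `-1 ≤ Re s ≤ 2` (finite sums). -/
def GB_stmt : Prop := ∀ (a : ℕ → ℂ) (N : ℕ) (τ : ℝ),
  Differentiable ℂ (P a N) ∧ Differentiable ℂ (g a N τ) ∧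
  ∃ M : ℝ, ∀ s : ℂ, -1 ≤ s.re → s.re ≤ 2 → ‖P a N s‖ ≤ M ∧ ‖g a N τ s‖ ≤ M

/-! ## complex analysis -/

/-- Log-convexity of mean squares. `c ∈ [a,b]`. For `R > 0` put `ψ(y) = conj (G(c+iy))`,
`Φ(s) = ∫_{-R}^{R} G(s+iy) ψ(y) dy`: holomorphic (differentiation under the integral over a compact
interval), bounded in the strip, `|Φ(a+it)| ≤ A^(1/2) ‖ψ‖₂` and `|Φ(b+it)| ≤ B^(1/2) ‖ψ‖₂` for all `t`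
(Cauchy-Schwarz), `Φ(c) = ‖ψ‖₂²`. Three lines theorem
(`Complex.HadamardThreeLines.norm_le_interp_of_mem_verticalClosedStrip'` or similar), `R → ∞`. -/
def TL_stmt : Prop := ∀ (G : ℂ → ℂ) (a b c A B M : ℝ), Differentiable ℂ G → a < b → a ≤ c → c ≤ b →
  (∀ s : ℂ, a ≤ s.re → s.re ≤ b → ‖G s‖ ≤ M * Real.exp (-|s.im|)) → 0 < A → 0 < B →
  ∫ y : ℝ, ‖G ((a : ℂ) + y * I)‖ ^ 2 ≤ A → ∫ y : ℝ, ‖G ((b : ℂ) + y * I)‖ ^ 2 ≤ B →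
  ∫ y : ℝ, ‖G ((c : ℂ) + y * I)‖ ^ 2 ≤ A ^ ((b - c) / (b - a)) * B ^ ((c - a) / (b - a))

/-- Cauchy's formula for the strip with the kernel `exp(2(s-1/2)²)/(s-1/2)`: apply `ct_res` of
Pool/Agent/helper91/DM/CT.lean to `G(z) = F(1/2+z) exp(2z²)` on `[-(1/2-η), 1/2-η]` and let `V → ∞`;
`|z| ≥ 1/4` on both lines, `|exp(2z²)| ≤ e exp(-2y²)`. -/
def CI_stmt : Prop := ∃ C : ℝ, 0 < C ∧ ∀ (F : ℂ → ℂ) (η M : ℝ) (k : ℕ), Differentiable ℂ F →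
  0 ≤ η → η ≤ 1 / 4 → (∀ s : ℂ, η ≤ s.re → s.re ≤ 1 - η → ‖F s‖ ≤ M * (1 + |s.im|) ^ k) →
  ‖F (1 / 2)‖ ≤ C * ((∫ y : ℝ, ‖F (((1 - η : ℝ) : ℂ) + y * I)‖ * Real.exp (-2 * y ^ 2)) +
    ∫ y : ℝ, ‖F ((η : ℂ) + y * I)‖ * Real.exp (-2 * y ^ 2))

/-- Phragmen-Lindelof in `-δ ≤ Re s ≤ 1+δ` for `L(s) exp(-g_δ(s)) Q^(-(1+δ-s)/2) (s+2)^(-2n)`, `Q = Q(0)`:
on the right line its modulus is `|f| |s+2|^(-2n) ≤ e^M` (G1); on the left line by FE (`σ = 1+δ`), G1 and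
QG it is `≤ B Q(y)^(1/2+δ) Q^(-(1+2δ)/2) |f(1+δ+iy)| |s+2|^(-2n) ≤ B (1+|y|)^(2n) |s+2|^(-2n) e^M ≤ B 4^n e^M`
(`1 + |y| ≤ 2|s+2|`). Growth: `growth`, GB. -/
def PL_stmt : Prop := ∀ n : ℕ, ∃ B : ℝ, 1 ≤ B ∧ ∀ (θ K : ℝ) (d : LDatum n), θ < 1 / 2 →
  Std θ K d → ∀ (N : ℕ) (δ M : ℝ), 0 < δ → δ ≤ 1 / 2 → 0 ≤ M →
  (∀ y : ℝ, ‖f d N (((1 + δ : ℝ) : ℂ) + y * I)‖ ≤ Real.exp M) →
  ∀ s : ℂ, -δ ≤ s.re → s.re ≤ 1 + δ →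
  ‖d.L s‖ ≤ B * Real.exp (M + (g d.a N δ s).re) * d.Q 0 ^ ((1 + δ - s.re) / 2) *
    ‖s + 2‖ ^ (2 * n)

/-! ## the three estimates -/

/-- Right line: TAIL, D1, D2, `|e^z - 1| ≤ |z| e^|z|`, `|exp((δ+iy)²)|² = e^(2δ²-2y²) ≤ e e^(-2y²)`.
Also `|f| ≤ exp √(C R / log N)` there. -/
def E1_stmt : Prop := ∃ C : ℝ, 1 ≤ C ∧ ∀ (n : ℕ) (θ K : ℝ) (d : LDatum n), Std θ K d →
  ∀ (N : ℕ) (δ R : ℝ), 2 ≤ N → 0 < δ → δ ≤ 1 / 2 → RS d.a δ R →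
  (∀ y : ℝ, ‖f d N (((1 + δ : ℝ) : ℂ) + y * I)‖ ≤ Real.exp (Real.sqrt (C * R / Real.log N))) ∧
  ∫ y : ℝ, ‖(f d N (((1 + δ : ℝ) : ℂ) + y * I) - 1) * exp (((δ : ℂ) + y * I) ^ 2)‖ ^ 2 ≤
    C * Real.exp (2 * Real.sqrt (C * R / Real.log N)) * (R / Real.log N ^ 2)

/-- Left line: `|f(1-H+iy)| = |L| exp(-Re P) ≤ B exp(M + |Re g - Re P|) Q^((H+δ)/2) |3-H+iy|^(2n)` (PL, G2),
then integrate against `e^(2H²-2y²)`. -/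
def E2_stmt : Prop := ∀ n : ℕ, ∃ B : ℝ, 1 ≤ B ∧ ∀ (θ K : ℝ) (d : LDatum n), θ < 1 / 2 →
  Std θ K d → ∀ (N : ℕ) (δ M H : ℝ), 1 ≤ N → 0 < δ → δ ≤ 1 / 2 → 0 ≤ M → 0 ≤ H → H ≤ 1 / 2 →
  (∀ y : ℝ, ‖f d N (((1 + δ : ℝ) : ℂ) + y * I)‖ ≤ Real.exp M) →
  ∫ y : ℝ, ‖(f d N (((1 - H : ℝ) : ℂ) + y * I) - 1) * exp (((-H : ℂ) + y * I) ^ 2)‖ ^ 2 ≤
    B * Real.exp (2 * M + 2 * ((2 * H + 2 * δ) * (N : ℝ) ^ H * S1 d.a N)) * d.Q 0 ^ (H + δ)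

/-- End: `F(s) = L(s) exp(-g_{-η}(s)) Q^(-(1-η-s)/2)` in CI; on the right line `|F| = |f(1-η+iy)|`, on the
left line `|F| ≤ B (1+|y|)^n |f(1-η+iy)|` (FE with `σ = 1-η`, QG, G1 with `τ = -η`);
`|f| ≤ 1 + |f-1|`, Cauchy-Schwarz; `|exp((-η+iy)²)|² ≥ e^(-2y²)`; G3. -/
def E3_stmt : Prop := ∀ (n : ℕ) (θ : ℝ), θ < 1 / 2 → ∃ C : ℝ, 1 ≤ C ∧ ∀ (K : ℝ) (d : LDatum n),
  Std θ K d → ∀ (N : ℕ) (η E : ℝ), 0 ≤ η → η ≤ 1 / 4 → η ≤ (1 / 2 - θ) / 4 → 0 ≤ E →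
  ∫ y : ℝ, ‖(f d N (((1 - η : ℝ) : ℂ) + y * I) - 1) * exp (((-η : ℂ) + y * I) ^ 2)‖ ^ 2 ≤ E ^ 2 →
  ‖d.L (1 / 2)‖ ≤ C * (1 + E) * d.Q 0 ^ ((1 : ℝ) / 4 - η / 2)

/-- TL for `G(s) = (f(s)-1) exp((s-1)²)` on `[1-H, 1+δ]` (growth: `growth`, GB). -/
def E4_stmt : Prop := ∀ (n : ℕ) (θ K : ℝ) (d : LDatum n), Std θ K d →
  ∀ (N : ℕ) (δ H η A B : ℝ), 0 < δ → δ ≤ 1 / 2 → 0 ≤ η → η ≤ H → H ≤ 1 / 2 → 0 < A → 0 < B →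
  ∫ y : ℝ, ‖(f d N (((1 - H : ℝ) : ℂ) + y * I) - 1) * exp (((-H : ℂ) + y * I) ^ 2)‖ ^ 2 ≤ A →
  ∫ y : ℝ, ‖(f d N (((1 + δ : ℝ) : ℂ) + y * I) - 1) * exp (((δ : ℂ) + y * I) ^ 2)‖ ^ 2 ≤ B →
  ∫ y : ℝ, ‖(f d N (((1 - η : ℝ) : ℂ) + y * I) - 1) * exp (((-η : ℂ) + y * I) ^ 2)‖ ^ 2 ≤
    A ^ ((δ + η) / (δ + H)) * B ^ ((H - η) / (δ + H))

/-! ## parameters -/

/-- Real analysis. `l ≥ l0`; `L2 = log l`, `δ = 1/(2l)`, `H = B L2/l`, `η = (1-2/B) L2/l`, `N = ⌊exp(l/L2)⌋`. -/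
def PA1_stmt : Prop := ∀ B c : ℝ, 4 ≤ B → 0 < c → ∃ l0 : ℝ, 1 ≤ l0 ∧ ∀ l : ℝ, l0 ≤ l →
  1 ≤ Real.log l ∧ B * Real.log l / l ≤ 1 / 2 ∧ Real.log l / l ≤ c ∧
  2 ≤ ⌊Real.exp (l / Real.log l)⌋₊ ∧
  l / (2 * Real.log l) ≤ Real.log ⌊Real.exp (l / Real.log l)⌋₊ ∧
  Real.log ⌊Real.exp (l / Real.log l)⌋₊ ≤ l / Real.log l ∧
  1 / (2 * l) * Real.log ⌊Real.exp (l / Real.log l)⌋₊ ≤ 1 ∧
  ((⌊Real.exp (l / Real.log l)⌋₊ : ℕ) : ℝ) ^ (B * Real.log l / l) ≤ Real.exp B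

/-- Real analysis. `A ≤ C exp(C √L2) l^B`, `E ≤ C exp(C √L2) L2² / l`; with
`t = (δ+η)/(δ+H) = ((1-2/B)L2 + 1/2)/(B L2 + 1/2) ≤ (1-2/B)/B + 1/(2 B L2)`:
`A^t E^(1-t) ≤ C' exp(C'√L2) L2² l^(B t - (1-t))`, `l^((B+1) t - 1) ≤ l^(-1/B) e^((B+1)/(2B))`; tends to 0. -/
def PA2_stmt : Prop := ∀ B C : ℝ, 4 ≤ B → 1 ≤ C → ∃ l0 : ℝ, 1 ≤ l0 ∧ ∀ l : ℝ, l0 ≤ l →
  (C * Real.exp (C * Real.sqrt (Real.log l)) * l ^ B) ^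
      ((1 / (2 * l) + (1 - 2 / B) * Real.log l / l) / (1 / (2 * l) + B * Real.log l / l)) *
    (C * Real.exp (C * Real.sqrt (Real.log l)) * (Real.log l ^ 2 / l)) ^
      ((B * Real.log l / l - (1 - 2 / B) * Real.log l / l) / (1 / (2 * l) + B * Real.log l / l)) ≤ 1

/-! ## conclusion -/

/-- Small conductor. PL at `s = 1/2` with `N = 2`, `δ = 1/(2l)`, `M = √(C R/log 2)`, `R = K(2l+1+log Q) ≤ 4 K l`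
(E1), G3 with `τ = δ`, `Q^(δ/2) ≤ e`; `l = 1 + log Q ≤ l0`. (`K` may be replaced by `max K 1`.) -/
def CONV_stmt : Prop := ∀ (n : ℕ) (θ K l0 : ℝ), θ < 1 / 2 → ∃ C : ℝ, 0 < C ∧ ∀ d : LDatum n,
  Std θ K d → 1 + Real.log (d.Q 0) ≤ l0 → ‖d.L (1 / 2)‖ ≤ C * d.Q 0 ^ ((1 : ℝ) / 4)

/-- Large conductor: `l = 1 + log Q(0) ≥ l0`. `B = max 4 (1/ε)`, parameters of PA1, `R = 4 (max K 1) l`;
E1 gives `M = √(C R / log N) ≤ C' √L2` and `E_R`, RS2 gives `S1 ≤ C' l/√L2`, so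
`(2H+2δ) N^H S1 ≤ C' √L2`; E2 (`Q^(H+δ) ≤ exp(l (H+δ)) = l^B e^(1/2)`), E4, PA2, E3 with `E = 1`:
`|L(1/2)| ≤ 2C Q^(1/4) Q^(-η/2)`, `Q^(-η/2) = exp(-η(l-1)/2) ≤ e l^(-(1-2/B)/2) ≤ e l^(-1/2+ε)`. -/
def BIG_stmt : Prop := ∀ (n : ℕ) (θ K ε : ℝ), θ < 1 / 2 → 0 < ε → ∃ C l0 : ℝ, 0 < C ∧ 1 ≤ l0 ∧
  ∀ d : LDatum n, Std θ K d → l0 ≤ 1 + Real.log (d.Q 0) →
  ‖d.L (1 / 2)‖ ≤ C * d.Q 0 ^ ((1 : ℝ) / 4) * (1 + Real.log (d.Q 0)) ^ (-(1 / 2) + ε)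

/-- THE THEOREM (CONV, BIG, SH). -/
def MAIN_stmt : Prop := ∀ (n : ℕ) (θ K ε : ℝ), θ < 1 / 2 → 0 < ε → ∃ C : ℝ, ∀ d : LDatum n,
  Std θ K d → ∀ t : ℝ, ‖d.L (1 / 2 + t * I)‖ ≤
    C * d.Q t ^ ((1 : ℝ) / 4) * (1 + Real.log (d.Q t)) ^ (-(1 / 2) + ε)

end Pool.Agent.WS
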